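import Mathlib

set_option autoImplicit false
set_option linter.unusedSectionVars false

namespace Pool.Agent.Results.MP_924496_co.NeverForTwo

open Finset

/-- `(L, H)` is a cover of `G`: the sets `L(v) = {w | L w = v}` partition the vertices of `H` and
induce cliques of `H`; the edges of `H` between `L(u)` and `L(v)` form a matching if `uv` is an
edge of `G`, and there are none if `u ≠ v` are not adjacent. -/
structure IsCover {V W : Type} (G : SimpleGraph V) (H : SimpleGraph W) (L : W → V) : Prop where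
  clique : ∀ x y, x ≠ y → L x = L y → H.Adj x y
  matching : ∀ x y y', G.Adj (L x) (L y) → L y = L y' → H.Adj x y → H.Adj x y' → y = y'
  no_other : ∀ x y, H.Adj x y → L x = L y ∨ G.Adj (L x) (L y)

/-- The cover is `m`-fold. -/
def IsFold {V W : Type} (L : W → V) (m : ℕ) : Prop := ∀ v, Nat.card {w // L w = v} = m

/-- `I` is an `H`-colouring of a graph with vertex type `V`: an independent set of `H` of size
`|V|`. -/
def IsCol (V : Type) {W : Type} [Fintype V] (H : SimpleGraph W) (I : Finset W) : Prop :=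
  (∀ x ∈ I, ∀ y ∈ I, ¬ H.Adj x y) ∧ I.card = Fintype.card V

/-- Every `m`-fold cover of `G` has a colouring. -/
def DPGood {V : Type} [Fintype V] (G : SimpleGraph V) (m : ℕ) : Prop :=
  ∀ (W : Type) [Fintype W] (H : SimpleGraph W) (L : W → V), IsCover G H L → IsFold L m →
    ∃ I, IsCol V H I

/-- The DP-chromatic number. -/
noncomputable def chiDP {V : Type} [Fintype V] (G : SimpleGraph V) : ℕ := sInf {m | DPGood G m}

/-- The DP colour function. -/
noncomputable def PDP {V : Type} [Fintype V] (G : SimpleGraph V) (m : ℕ) : ℕ :=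
  sInf {N | ∃ (W : Type) (_ : Fintype W) (H : SimpleGraph W) (L : W → V), IsCover G H L ∧
    IsFold L m ∧ N = Nat.card {I : Finset W // IsCol V H I}}

/-- `f(G, k)`: the least `t` with `χ_DP(G □ K_{k,t}) = χ_DP(G) + k`. -/
noncomputable def fG {V : Type} [Fintype V] (G : SimpleGraph V) (k : ℕ) : ℕ :=
  sInf {t | chiDP (G □ completeBipartiteGraph (Fin k) (Fin t)) = chiDP G + k}

section General

variable {V W : Type} [Fintype V] [Fintype W] {G : SimpleGraph V} {H : SimpleGraph W} {L : W → V}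

lemma IsCover.injOn (hc : IsCover G H L) {I : Finset W} (hI : ∀ x ∈ I, ∀ y ∈ I, ¬ H.Adj x y) :
    Set.InjOn L I := by
  intro x hx y hy h
  by_contra hne
  exact hI x hx y hy (hc.clique x y hne h)

lemma IsCover.col_surj (hc : IsCover G H L) {I : Finset W} (hI : IsCol V H I) (v : V) :
    ∃ x ∈ I, L x = v := by
  classical
  have h1 : (I.image L).card = Fintype.card V := by
    rw [card_image_of_injOn (hc.injOn hI.1), hI.2]
  have h2 : I.image L = univ := (card_eq_iff_eq_univ _).mp h1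
  have := mem_univ v
  rw [← h2, mem_image] at this
  exact this

lemma IsCover.isCol_of (hc : IsCover G H L) {I : Finset W} (hI : ∀ x ∈ I, ∀ y ∈ I, ¬ H.Adj x y)
    (hs : ∀ v, ∃ x ∈ I, L x = v) : IsCol V H I := by
  classical
  refine ⟨hI, ?_⟩
  have h2 : I.image L = univ := by
    ext v; simp only [mem_image, mem_univ, iff_true]; exact hs v
  rw [← card_image_of_injOn (hc.injOn hI), h2, card_univ]

/-- Restriction of a cover to a smaller set. -/
lemma IsCover.induce (hc : IsCover G H L) (S : Set W) :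
    IsCover G (H.induce S) (fun w : S => L w.1) where
  clique := fun _ _ hxy h => hc.clique _ _ (fun h' => hxy (Subtype.ext h')) h
  matching := fun _ _ _ h h1 h2 h3 => Subtype.ext (hc.matching _ _ _ h h1 h2 h3)
  no_other := fun _ _ h => hc.no_other _ _ h

/-- A cover with large enough lists has a colouring. -/
lemma exists_col_of_le {m : ℕ} (hG : DPGood G m) (hc : IsCover G H L)
    (hm : ∀ v, m ≤ Nat.card {w // L w = v}) : ∃ I, IsCol V H I := by
  classical
  have hex : ∀ v, ∃ T : Finset W, (∀ w ∈ T, L w = v) ∧ T.card = m := by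
    intro v
    have h1 : m ≤ (univ.filter (fun w => L w = v)).card := by
      rw [← Fintype.card_subtype, ← Nat.card_eq_fintype_card]; exact hm v
    obtain ⟨T, hT, hTc⟩ := exists_subset_card_eq h1
    exact ⟨T, fun w hw => (mem_filter.mp (hT hw)).2, hTc⟩
  choose T hT hTc using hex
  set S : Set W := {w | w ∈ T (L w)} with hS
  have hfold : IsFold (fun w : S => L w.1) m := by
    intro v
    have e : {w : S // L w.1 = v} ≃ T v :=
      { toFun := fun w => ⟨w.1.1, by
          have h1 : w.1.1 ∈ T (L w.1.1) := w.1.2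
          have h2 : L w.1.1 = v := w.2
          rw [h2] at h1; exact h1⟩
        invFun := fun w => ⟨⟨w.1, by show w.1 ∈ T (L w.1); rw [hT v w.1 w.2]; exact w.2⟩, hT v w.1 w.2⟩
        left_inv := fun w => rfl
        right_inv := fun w => rfl }
    rw [Nat.card_congr e, Nat.card_eq_fintype_card, Fintype.card_coe, hTc]
  obtain ⟨I, hI⟩ := hG S (H.induce S) _ (hc.induce S) hfold
  refine ⟨I.map (Function.Embedding.subtype _), ?_, ?_⟩
  · intro x hx y hy hadj
    rw [mem_map] at hx hy
    obtain ⟨x, hx, rfl⟩ := hx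
    obtain ⟨y, hy, rfl⟩ := hy
    exact hI.1 x hx y hy hadj
  · rw [card_map]; exact hI.2

lemma dpGood_mono {m m' : ℕ} (hG : DPGood G m) (h : m ≤ m') : DPGood G m' := by
  intro W _ H L hc hf
  exact exists_col_of_le hG hc (fun v => by rw [hf v]; exact h)

/-- A bound for the DP-chromatic number. -/
lemma dpGood_card (G : SimpleGraph V) : DPGood G (Fintype.card V) := by
  classical
  intro W _ H L hc hf
  -- a largest independent set
  obtain ⟨I, hI, hmax⟩ := ((univ : Finset (Finset W)).filter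
    (fun I => ∀ x ∈ I, ∀ y ∈ I, ¬ H.Adj x y)).exists_max_image Finset.card ⟨∅, by simp⟩
  rw [mem_filter] at hI
  refine ⟨I, hc.isCol_of hI.2 ?_⟩
  by_contra hcon
  push Not at hcon
  obtain ⟨v, hv⟩ := hcon
  have hlt : I.card < Fintype.card V := by
    rw [← card_image_of_injOn (hc.injOn hI.2), ← card_univ]
    apply card_lt_card
    rw [ssubset_univ_iff]
    intro h
    have := mem_univ v
    rw [← h, mem_image] at this
    obtain ⟨x, hx, hxv⟩ := this
    exact hv x hx hxv
  -- each element of the list has a neighbour in `I`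
  have hnb : ∀ w : {w // L w = v}, ∃ x ∈ I, H.Adj w.1 x := by
    intro w
    by_contra hno
    push Not at hno
    have hwI : w.1 ∉ I := fun h => hv w.1 h w.2
    have := hmax (insert w.1 I) (by
      rw [mem_filter]
      refine ⟨mem_univ _, ?_⟩
      intro x hx y hy
      rw [mem_insert] at hx hy
      rcases hx with rfl | hx
      · rcases hy with rfl | hy
        · exact H.irrefl
        · exact hno y hy
      · rcases hy with rfl | hy
        · exact fun h => hno x hx h.symm
        · exact hI.2 x hx y hy)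
    rw [card_insert_of_notMem hwI] at this
    omega
  choose nb hnb1 hnb2 using hnb
  have hinj : Function.Injective (fun w => (⟨nb w, hnb1 w⟩ : I)) := by
    intro w w' h
    have h' : nb w = nb w' := congrArg Subtype.val h
    apply Subtype.ext
    have hadj : G.Adj (L (nb w)) (L w.1) := by
      rcases hc.no_other _ _ (hnb2 w).symm with h1 | h1
      · exact absurd (h1.trans w.2) (hv _ (hnb1 w))
      · exact h1
    exact hc.matching (nb w) w.1 w'.1 hadj (w.2.trans w'.2.symm) (hnb2 w).symm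
      (by rw [h']; exact (hnb2 w').symm)
  have := Fintype.card_le_of_injective _ hinj
  rw [Fintype.card_coe, ← Nat.card_eq_fintype_card, hf v] at this
  omega

lemma chiDP_good (G : SimpleGraph V) : DPGood G (chiDP G) :=
  Nat.sInf_mem (s := {m | DPGood G m}) ⟨_, dpGood_card G⟩

lemma not_good_of_lt {m : ℕ} (h : m < chiDP G) : ¬ DPGood G m :=
  fun h' => Nat.notMem_of_lt_sInf h h'

lemma chiDP_pos [Nonempty V] (G : SimpleGraph V) : 0 < chiDP G := by
  by_contra h
  have h0 : chiDP G = 0 := by omega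
  have hg := chiDP_good G
  rw [h0] at hg
  obtain ⟨I, hI⟩ := hg Empty ⊥ (fun e => e.elim)
    ⟨fun x => x.elim, fun x => x.elim, fun x => x.elim⟩
    (fun v => by simp)
  have := hI.2
  have h1 : I = ∅ := by ext x; exact x.elim
  rw [h1, card_empty] at this
  exact Fintype.card_ne_zero this.symm

end General



section Upper

variable {V W B : Type} [Fintype V] [Fintype W] [Fintype B] {G : SimpleGraph V}
  {H : SimpleGraph W} {K : SimpleGraph B} {L : W → V × B}

/-- Restriction of a cover of a product to a part of one copy of `G`. -/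
lemma IsCover.fiber (hc : IsCover (G □ K) H L) (b : B) (S : Set W) (hS : ∀ w ∈ S, (L w).2 = b) :
    IsCover G (H.induce S) (fun w : S => (L w.1).1) where
  clique := fun x y hxy h => hc.clique _ _ (fun h' => hxy (Subtype.ext h'))
    (Prod.ext h ((hS _ x.2).trans (hS _ y.2).symm))
  matching := fun x y y' h h1 h2 h3 => Subtype.ext (hc.matching x.1 y.1 y'.1
     (by rw [SimpleGraph.boxProd_adj]; exact Or.inl ⟨h, (hS _ x.2).trans (hS _ y.2).symm⟩)
     (Prod.ext h1 ((hS _ y.2).trans (hS _ y'.2).symm)) h2 h3)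
  no_other := fun x y h => by
    rcases hc.no_other _ _ h with h1 | h1
    · exact Or.inl (congrArg Prod.fst h1)
    · rw [SimpleGraph.boxProd_adj] at h1
      rcases h1 with h1 | h1
      · exact Or.inr h1.1
      · exact Or.inl h1.2

lemma fiber_col (hc : IsCover (G □ K) H L) (b : B) (S : Set W)
    (hn : ∀ v, chiDP G ≤ Nat.card {w // L w = (v, b) ∧ w ∈ S}) :
    ∃ I : Finset W, (∀ x ∈ I, x ∈ S ∧ (L x).2 = b) ∧ (∀ x ∈ I, ∀ y ∈ I, ¬ H.Adj x y) ∧
      ∀ v, ∃ x ∈ I, L x = (v, b) := by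
  classical
  have hc' := hc.fiber b {w | w ∈ S ∧ (L w).2 = b} (fun w hw => hw.2)
  obtain ⟨I, hI⟩ := exists_col_of_le (chiDP_good G) hc' (by
    intro v
    refine (hn v).trans (le_of_eq (Nat.card_congr ?_))
    exact
      { toFun := fun w => ⟨⟨w.1, w.2.2, by rw [w.2.1]⟩, by
          show (L w.1).1 = v
          rw [w.2.1]⟩
        invFun := fun w => ⟨w.1.1, Prod.ext w.2 w.1.2.2, w.1.2.1⟩
        left_inv := fun w => rfl
        right_inv := fun w => rfl })
  refine ⟨I.map (Function.Embedding.subtype _), ?_, ?_, ?_⟩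
  · intro x hx
    rw [mem_map] at hx
    obtain ⟨x, hx, rfl⟩ := hx
    exact x.2
  · intro x hx y hy hadj
    rw [mem_map] at hx hy
    obtain ⟨x, hx, rfl⟩ := hx
    obtain ⟨y, hy, rfl⟩ := hy
    exact hI.1 x hx y hy hadj
  · intro v
    obtain ⟨x, hx, hxv⟩ := hc'.col_surj hI v
    exact ⟨x.1, mem_map_of_mem _ hx, Prod.ext hxv x.2.2⟩

lemma upper (G : SimpleGraph V) (k t : ℕ) :
    DPGood (G □ completeBipartiteGraph (Fin k) (Fin t)) (chiDP G + k) := by
  classical
  intro W _ H L hc hf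
  have h1 : ∀ i : Fin k, ∃ I : Finset W, (∀ x ∈ I, x ∈ (Set.univ : Set W) ∧ (L x).2 = Sum.inl i) ∧
      (∀ x ∈ I, ∀ y ∈ I, ¬ H.Adj x y) ∧ ∀ v, ∃ x ∈ I, L x = (v, Sum.inl i) := by
    intro i
    apply fiber_col hc
    intro v
    have h := hf (v, Sum.inl i)
    have h2 : Nat.card {w // L w = (v, Sum.inl i) ∧ w ∈ (Set.univ : Set W)} = chiDP G + k := by
      rw [← h]
      exact Nat.card_congr (Equiv.subtypeEquivRight (fun w => by simp))
    omega
  choose I hI1 hI2 hI3 using h1
  -- an edge between two copies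
  have hx : ∀ (i : Fin k) (τ : Fin t) (v : V) (x w : W), x ∈ I i → L w = (v, Sum.inr τ) →
      H.Adj x w → L x = (v, Sum.inl i) ∧
        (G □ completeBipartiteGraph (Fin k) (Fin t)).Adj (L x) (L w) := by
    intro i τ v x w hx hw hadj
    have hx2 := (hI1 i x hx).2
    rcases hc.no_other _ _ hadj with h | h
    · rw [h, hw] at hx2; simp at hx2
    · refine ⟨?_, h⟩
      rw [SimpleGraph.boxProd_adj] at h
      rcases h with h | h
      · rw [hx2, hw] at h; simp at h
      · refine Prod.ext ?_ hx2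
        rw [h.2, hw]
  have h2 : ∀ τ : Fin t, ∃ J : Finset W,
      (∀ x ∈ J, x ∈ ({w | ∀ i, ∀ x ∈ I i, ¬ H.Adj x w} : Set W) ∧ (L x).2 = Sum.inr τ) ∧
      (∀ x ∈ J, ∀ y ∈ J, ¬ H.Adj x y) ∧ ∀ v, ∃ x ∈ J, L x = (v, Sum.inr τ) := by
    intro τ
    apply fiber_col hc
    intro v
    have h := hf (v, Sum.inr τ)
    rw [Nat.card_eq_fintype_card, Fintype.card_subtype] at h
    rw [Nat.card_eq_fintype_card, Fintype.card_subtype]
    set F := univ.filter (fun w => L w = (v, Sum.inr τ)) with hF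
    have e1 : univ.filter (fun w => L w = (v, Sum.inr τ) ∧
        w ∈ ({w | ∀ i, ∀ x ∈ I i, ¬ H.Adj x w} : Set W)) =
        F.filter (fun w => ¬ ∃ i, ∃ x ∈ I i, H.Adj x w) := by
      ext w
      simp only [hF, mem_filter, mem_univ, true_and, Set.mem_ofPred_eq]
      push Not
      rfl
    rw [e1]
    have e2 := Finset.card_filter_add_card_filter_not (s := F) (fun w => ∃ i, ∃ x ∈ I i, H.Adj x w)
    have e3 : (F.filter (fun w => ∃ i, ∃ x ∈ I i, H.Adj x w)).card ≤ k := by
      have hex : ∀ w : {w // w ∈ F.filter (fun w => ∃ i, ∃ x ∈ I i, H.Adj x w)},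
          ∃ i, ∃ x ∈ I i, H.Adj x w.1 := fun w => (mem_filter.mp w.2).2
      choose g x hx1 hx2 using hex
      have hginj : Function.Injective g := by
        intro w w' hgg
        apply Subtype.ext
        have hwF : L w.1 = (v, Sum.inr τ) := (mem_filter.mp (mem_filter.mp w.2).1).2
        have hwF' : L w'.1 = (v, Sum.inr τ) := (mem_filter.mp (mem_filter.mp w'.2).1).2
        have ha := hx (g w) τ v (x w) w.1 (hx1 w) hwF (hx2 w)
        have hb := hx (g w') τ v (x w') w'.1 (hx1 w') hwF' (hx2 w')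
        have hxx : x w = x w' := by
          apply hc.injOn (hI2 (g w)) (hx1 w) (by rw [hgg]; exact hx1 w')
          rw [ha.1, hb.1, hgg]
        exact hc.matching (x w) w.1 w'.1 ha.2 (hwF.trans hwF'.symm) (hx2 w)
          (by rw [hxx]; exact hx2 w')
      have := Fintype.card_le_of_injective g hginj
      rwa [Fintype.card_coe, Fintype.card_fin] at this
    omega
  choose J hJ1 hJ2 hJ3 using h2
  refine ⟨univ.biUnion I ∪ univ.biUnion J, hc.isCol_of ?_ ?_⟩
  · have hII : ∀ i i', ∀ x ∈ I i, ∀ y ∈ I i', ¬ H.Adj x y := by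
      intro i i' x hx' y hy hadj
      by_cases hii : i = i'
      · subst hii; exact hI2 i x hx' y hy hadj
      · have e1 := (hI1 i x hx').2
        have e2 := (hI1 i' y hy).2
        rcases hc.no_other _ _ hadj with h | h
        · rw [h, e2] at e1
          exact hii (Sum.inl_injective e1).symm
        · rw [SimpleGraph.boxProd_adj] at h
          rcases h with h | h
          · rw [e1, e2] at h
            exact hii (Sum.inl_injective h.2)
          · rw [e1, e2] at h
            simp at h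
    have hJJ : ∀ i i', ∀ x ∈ J i, ∀ y ∈ J i', ¬ H.Adj x y := by
      intro i i' x hx' y hy hadj
      by_cases hii : i = i'
      · subst hii; exact hJ2 i x hx' y hy hadj
      · have e1 := (hJ1 i x hx').2
        have e2 := (hJ1 i' y hy).2
        rcases hc.no_other _ _ hadj with h | h
        · rw [h, e2] at e1
          exact hii (Sum.inr_injective e1).symm
        · rw [SimpleGraph.boxProd_adj] at h
          rcases h with h | h
          · rw [e1, e2] at h
            exact hii (Sum.inr_injective h.2)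
          · rw [e1, e2] at h
            simp at h
    have hIJ : ∀ i i', ∀ x ∈ I i, ∀ y ∈ J i', ¬ H.Adj x y := by
      intro i i' x hx' y hy
      exact (hJ1 i' y hy).1 i x hx'
    intro x hx' y hy hadj
    rw [mem_union, mem_biUnion, mem_biUnion] at hx' hy
    rcases hx' with ⟨i, -, hx'⟩ | ⟨i, -, hx'⟩ <;> rcases hy with ⟨i', -, hy⟩ | ⟨i', -, hy⟩
    · exact hII i i' x hx' y hy hadj
    · exact hIJ i i' x hx' y hy hadj
    · exact hIJ i' i y hy x hx' hadj.symm
    · exact hJJ i i' x hx' y hy hadj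
  · rintro ⟨v, b⟩
    rcases b with i | τ
    · obtain ⟨x, hx', hxv⟩ := hI3 i v
      exact ⟨x, mem_union_left _ (mem_biUnion.mpr ⟨i, mem_univ _, hx'⟩), hxv⟩
    · obtain ⟨x, hx', hxv⟩ := hJ3 τ v
      exact ⟨x, mem_union_right _ (mem_biUnion.mpr ⟨τ, mem_univ _, hx'⟩), hxv⟩

end Upper

section Lower

variable {V W0 W1 : Type} [Fintype V] [Fintype W0] [Fintype W1] {G : SimpleGraph V}
  {H0 : SimpleGraph W0} {H1 : SimpleGraph W1} {L0 : W0 → V} {L1 : W1 → V} {k t : ℕ}

/-- The vertices of the combined cover. -/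
abbrev CV (V W0 W1 : Type) (k t : ℕ) : Type := (W0 × Fin k) ⊕ (Fin t × (W1 ⊕ (V × Fin k)))

/-- The adjacency of the combined cover. -/
def combAdj (H0 : SimpleGraph W0) (L0 : W0 → V) (H1 : SimpleGraph W1) (L1 : W1 → V)
    (A : Fin t → Fin k → Fin k → Set W0) : CV V W0 W1 k t → CV V W0 W1 k t → Prop
  | Sum.inl (w, i), Sum.inl (w', i') => i = i' ∧ H0.Adj w w'
  | Sum.inl _, Sum.inr (_, Sum.inl _) => False
  | Sum.inl (w, i), Sum.inr (τ, Sum.inr (v, j)) => L0 w = v ∧ w ∈ A τ i j
  | Sum.inr (_, Sum.inl _), Sum.inl _ => False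
  | Sum.inr (τ, Sum.inr (v, j)), Sum.inl (w, i) => L0 w = v ∧ w ∈ A τ i j
  | Sum.inr (τ, Sum.inl w), Sum.inr (τ', Sum.inl w') => τ = τ' ∧ H1.Adj w w'
  | Sum.inr (τ, Sum.inl w), Sum.inr (τ', Sum.inr (v, _)) => τ = τ' ∧ L1 w = v
  | Sum.inr (τ, Sum.inr (v, _)), Sum.inr (τ', Sum.inl w) => τ = τ' ∧ L1 w = v
  | Sum.inr (τ, Sum.inr (v, j)), Sum.inr (τ', Sum.inr (v', j')) => τ = τ' ∧ v = v' ∧ j ≠ j'

/-- The combined cover. -/
def comb (H0 : SimpleGraph W0) (L0 : W0 → V) (H1 : SimpleGraph W1) (L1 : W1 → V)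
    (A : Fin t → Fin k → Fin k → Set W0) : SimpleGraph (CV V W0 W1 k t) where
  Adj := combAdj H0 L0 H1 L1 A
  symm := by
    refine ⟨?_⟩
    rintro (⟨w, i⟩ | ⟨τ, (w | ⟨v, j⟩)⟩) (⟨w', i'⟩ | ⟨τ', (w' | ⟨v', j'⟩)⟩) h
    · exact ⟨h.1.symm, h.2.symm⟩
    · exact h
    · exact h
    · exact h
    · exact ⟨h.1.symm, h.2.symm⟩
    · exact ⟨h.1.symm, h.2⟩
    · exact h
    · exact ⟨h.1.symm, h.2⟩
    · exact ⟨h.1.symm, h.2.1.symm, h.2.2.symm⟩
  loopless := by
    refine ⟨?_⟩
    rintro (⟨w, i⟩ | ⟨τ, (w | ⟨v, j⟩)⟩) h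
    · exact H0.irrefl h.2
    · exact H1.irrefl h.2
    · exact h.2.2 rfl

/-- The lists of the combined cover. -/
def combL (L0 : W0 → V) (L1 : W1 → V) : CV V W0 W1 k t → V × (Fin k ⊕ Fin t)
  | Sum.inl (w, i) => (L0 w, Sum.inl i)
  | Sum.inr (τ, Sum.inl w) => (L1 w, Sum.inr τ)
  | Sum.inr (τ, Sum.inr (v, _)) => (v, Sum.inr τ)

lemma comb_cover (hc0 : IsCover G H0 L0) (hc1 : IsCover G H1 L1)
    (A : Fin t → Fin k → Fin k → Set W0)
    (hA1 : ∀ τ i j j' w, w ∈ A τ i j → w ∈ A τ i j' → j = j')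
    (hA2 : ∀ τ i j w w', w ∈ A τ i j → w' ∈ A τ i j → L0 w = L0 w' → w = w') :
    IsCover (G □ completeBipartiteGraph (Fin k) (Fin t)) (comb H0 L0 H1 L1 A) (combL L0 L1) where
  clique := by
    rintro (⟨w, i⟩ | ⟨τ, (w | ⟨v, j⟩)⟩) (⟨w', i'⟩ | ⟨τ', (w' | ⟨v', j'⟩)⟩) hne h <;>
      simp only [combL, Prod.mk.injEq, Sum.inl.injEq, Sum.inr.injEq, reduceCtorEq, and_false] at h
    · obtain ⟨h1, rfl⟩ := h
      exact ⟨rfl, hc0.clique _ _ (fun e => hne (by rw [e])) h1⟩
    · obtain ⟨h1, rfl⟩ := h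
      exact ⟨rfl, hc1.clique _ _ (fun e => hne (by rw [e])) h1⟩
    · exact ⟨h.2, h.1⟩
    · exact ⟨h.2, h.1.symm⟩
    · obtain ⟨rfl, rfl⟩ := h
      exact ⟨rfl, rfl, fun e => hne (by rw [e])⟩
  matching := by
    rintro (⟨w, i⟩ | ⟨τ, (w | ⟨v, j⟩)⟩) (⟨w', i'⟩ | ⟨τ', (w' | ⟨v', j'⟩)⟩)
      (⟨w'', i''⟩ | ⟨τ'', (w'' | ⟨v'', j''⟩)⟩) h1 h2 h3 h4 <;>
      simp only [combL, Prod.mk.injEq, Sum.inl.injEq, Sum.inr.injEq, reduceCtorEq, and_false,
        SimpleGraph.boxProd_adj] at h1 h2 <;>
      simp only [comb, combAdj] at h3 h4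
    · obtain ⟨h2, rfl⟩ := h2
      obtain ⟨rfl, h3⟩ := h3
      rcases h1 with h1 | h1
      · rw [hc0.matching w w' w'' h1.1 h2 h3 h4.2]
      · simp at h1
    · obtain ⟨rfl, rfl⟩ := h2
      have := hA1 _ _ _ _ _ h3.2 h4.2
      rw [this]
    · obtain ⟨h2, rfl⟩ := h2
      obtain ⟨rfl, h3⟩ := h3
      rcases h1 with h1 | h1
      · rw [hc1.matching w w' w'' h1.1 h2 h3 h4.2]
      · simp at h1
    · obtain ⟨h2, rfl⟩ := h2
      obtain ⟨rfl, h3⟩ := h3
      rcases h1 with h1 | h1
      · exact absurd h1.1 (by rw [h2, h4.2]; exact G.irrefl)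
      · simp at h1
    · obtain ⟨h2, rfl⟩ := h2
      obtain ⟨rfl, h3⟩ := h3
      rcases h1 with h1 | h1
      · exact absurd h1.1 (by rw [h3]; exact G.irrefl)
      · simp at h1
    · obtain ⟨h2, rfl⟩ := h2
      obtain ⟨rfl, h3⟩ := h3
      rcases h1 with h1 | h1
      · exact absurd h1.1 (by rw [h3]; exact G.irrefl)
      · simp at h1
    · obtain ⟨h2, rfl⟩ := h2
      rw [hA2 _ _ _ _ _ h3.2 h4.2 (h3.1.trans h4.1.symm)]
    · obtain ⟨h2, rfl⟩ := h2
      obtain ⟨rfl, h3⟩ := h3
      rcases h1 with h1 | h1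
      · exact absurd h1.1 (by rw [h3]; exact G.irrefl)
      · simp at h1
    · obtain ⟨h2, rfl⟩ := h2
      obtain ⟨rfl, h3⟩ := h3
      rcases h1 with h1 | h1
      · exact absurd h1.1 (by rw [h3]; exact G.irrefl)
      · simp at h1
    · obtain ⟨h2, rfl⟩ := h2
      obtain ⟨rfl, h3⟩ := h3
      rcases h1 with h1 | h1
      · exact absurd h1.1 (by rw [h3.1]; exact G.irrefl)
      · simp at h1
    · obtain ⟨h2, rfl⟩ := h2
      obtain ⟨rfl, h3⟩ := h3
      rcases h1 with h1 | h1
      · exact absurd h1.1 (by rw [h3.1]; exact G.irrefl)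
      · simp at h1
  no_other := by
    rintro (⟨w, i⟩ | ⟨τ, (w | ⟨v, j⟩)⟩) (⟨w', i'⟩ | ⟨τ', (w' | ⟨v', j'⟩)⟩) h <;>
      simp only [comb, combAdj] at h <;>
      simp only [combL, Prod.mk.injEq, Sum.inl.injEq, Sum.inr.injEq, reduceCtorEq, and_false,
        SimpleGraph.boxProd_adj]
    · rcases hc0.no_other _ _ h.2 with h1 | h1
      · exact Or.inl ⟨h1, h.1⟩
      · exact Or.inr (Or.inl ⟨h1, h.1⟩)
    · right; right; simp [h.1]
    · rcases hc1.no_other _ _ h.2 with h1 | h1
      · exact Or.inl ⟨h1, h.1⟩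
      · exact Or.inr (Or.inl ⟨h1, h.1⟩)
    · exact Or.inl ⟨h.2, h.1⟩
    · right; right; simp [h.1]
    · exact Or.inl ⟨h.2.symm, h.1⟩
    · exact Or.inl ⟨h.2.1, h.1⟩

lemma comb_fold {a b : ℕ} (h0 : IsFold L0 (a + b)) (h1 : IsFold L1 a) (hb : b = k) :
    IsFold (combL (k := k) (t := t) L0 L1) (a + b) := by
  classical
  subst hb
  rintro ⟨v, i | τ⟩
  · rw [← h0 v]
    apply Nat.card_congr
    exact
      { toFun := fun x => match x with
          | ⟨Sum.inl (w, i'), h⟩ => ⟨w, congrArg Prod.fst h⟩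
          | ⟨Sum.inr (τ, Sum.inl w), h⟩ => by simp [combL] at h
          | ⟨Sum.inr (τ, Sum.inr (v, _)), h⟩ => by simp [combL] at h
        invFun := fun w => ⟨Sum.inl (w.1, i), by simp [combL, w.2]⟩
        left_inv := by
          rintro ⟨(⟨w, i'⟩ | ⟨τ, (w | ⟨v', j⟩)⟩), h⟩
          · simp only [combL, Prod.mk.injEq, Sum.inl.injEq] at h
            simp [h.2]
          · simp [combL] at h
          · simp [combL] at h
        right_inv := fun w => rfl }
  · have e : {x : CV V W0 W1 b t // combL L0 L1 x = (v, Sum.inr τ)} ≃ {w // L1 w = v} ⊕ Fin b :=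
      { toFun := fun x => match x with
          | ⟨Sum.inl (w, i'), h⟩ => by simp [combL] at h
          | ⟨Sum.inr (τ, Sum.inl w), h⟩ => Sum.inl ⟨w, congrArg Prod.fst h⟩
          | ⟨Sum.inr (τ, Sum.inr (v, j)), h⟩ => Sum.inr j
        invFun := fun x => match x with
          | Sum.inl w => ⟨Sum.inr (τ, Sum.inl w.1), by simp [combL, w.2]⟩
          | Sum.inr j => ⟨Sum.inr (τ, Sum.inr (v, j)), rfl⟩
        left_inv := by
          rintro ⟨(⟨w, i'⟩ | ⟨τ, (w | ⟨v', j⟩)⟩), h⟩
          · simp [combL] at h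
          · simp only [combL, Prod.mk.injEq, Sum.inr.injEq] at h
            simp [h.2]
          · simp only [combL, Prod.mk.injEq, Sum.inr.injEq] at h
            simp [h.1, h.2]
        right_inv := by
          rintro (w | j) <;> rfl }
    rw [Nat.card_congr e, Nat.card_sum, h1 v, Nat.card_eq_fintype_card, Fintype.card_fin]

/-- The combined cover has no colouring if the sets `A` block everything. -/
lemma comb_nocol (hc0 : IsCover G H0 L0) (hc1 : IsCover G H1 L1)
    (A : Fin t → Fin k → Fin k → Set W0)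
    (hA1 : ∀ τ i j j' w, w ∈ A τ i j → w ∈ A τ i j' → j = j')
    (hA2 : ∀ τ i j w w', w ∈ A τ i j → w' ∈ A τ i j → L0 w = L0 w' → w = w')
    (hbad : ¬ ∃ I, IsCol V H1 I)
    (hblock : ∀ C : Fin k → Finset W0, (∀ i, IsCol V H0 (C i)) →
      ∃ τ, ∀ v j, ∃ i, ∃ w ∈ C i, L0 w = v ∧ w ∈ A τ i j) :
    ¬ ∃ I, IsCol (V × (Fin k ⊕ Fin t)) (comb H0 L0 H1 L1 A) I := by
  classical
  rintro ⟨I, hI⟩
  have hc := comb_cover hc0 hc1 A hA1 hA2
  have hs := hc.col_surj hI
  obtain ⟨τ, hτ⟩ := hblock (fun i => univ.filter (fun w => Sum.inl (w, i) ∈ I)) (by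
    intro i
    apply hc0.isCol_of
    · intro x hx y hy hadj
      rw [mem_filter] at hx hy
      exact hI.1 _ hx.2 _ hy.2 ⟨rfl, hadj⟩
    · intro v
      obtain ⟨x, hx, hxv⟩ := hs (v, Sum.inl i)
      rcases x with ⟨w, i'⟩ | ⟨τ, (w | ⟨v', j⟩)⟩
      · simp only [combL, Prod.mk.injEq, Sum.inl.injEq] at hxv
        obtain ⟨h1, rfl⟩ := hxv
        exact ⟨w, by simpa using hx, h1⟩
      · simp [combL] at hxv
      · simp [combL] at hxv)
  apply hbad
  refine ⟨univ.filter (fun w => Sum.inr (τ, Sum.inl w) ∈ I), hc1.isCol_of ?_ ?_⟩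
  · intro x hx y hy hadj
    rw [mem_filter] at hx hy
    exact hI.1 _ hx.2 _ hy.2 ⟨rfl, hadj⟩
  · intro v
    obtain ⟨x, hx, hxv⟩ := hs (v, Sum.inr τ)
    rcases x with ⟨w, i'⟩ | ⟨τ', (w | ⟨v', j⟩)⟩
    · simp [combL] at hxv
    · simp only [combL, Prod.mk.injEq, Sum.inr.injEq] at hxv
      obtain ⟨h1, rfl⟩ := hxv
      exact ⟨w, by simpa using hx, h1⟩
    · simp only [combL, Prod.mk.injEq, Sum.inr.injEq] at hxv
      obtain ⟨rfl, rfl⟩ := hxv
      obtain ⟨i, w, hw, h1, h2⟩ := hτ v' j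
      rw [mem_filter] at hw
      exact absurd (show (comb H0 L0 H1 L1 A).Adj (Sum.inl (w, i)) (Sum.inr (τ', Sum.inr (v', j)))
        from ⟨h1, h2⟩) (hI.1 _ hw.2 _ hx)

end Lower

section Main

variable {V : Type} [Fintype V]

/-- There is an `m`-fold cover. -/
lemma exists_cover (G : SimpleGraph V) (m : ℕ) :
    ∃ (W : Type) (_ : Fintype W) (H : SimpleGraph W) (L : W → V), IsCover G H L ∧ IsFold L m := by
  refine ⟨V × Fin m, inferInstance, ⟨fun x y => x.1 = y.1 ∧ x.2 ≠ y.2,
    ⟨fun x y h => ⟨h.1.symm, h.2.symm⟩⟩, ⟨fun x h => h.2 rfl⟩⟩, Prod.fst, ⟨?_, ?_, ?_⟩, ?_⟩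
  · intro x y hne h
    exact ⟨h, fun h2 => hne (Prod.ext h h2)⟩
  · intro x y y' h1 _ h3 _
    exact absurd h1 (by rw [h3.1]; exact G.irrefl)
  · intro x y h
    exact Or.inl h.1
  · intro v
    have e : {w : V × Fin m // w.1 = v} ≃ Fin m :=
      { toFun := fun w => w.1.2
        invFun := fun j => ⟨(v, j), rfl⟩
        left_inv := by rintro ⟨⟨v', j⟩, rfl⟩; rfl
        right_inv := fun j => rfl }
    rw [Nat.card_congr e, Nat.card_eq_fintype_card, Fintype.card_fin]

/-- A cover with the least number of colourings. -/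
lemma exists_optimal (G : SimpleGraph V) (m : ℕ) :
    ∃ (W : Type) (_ : Fintype W) (H : SimpleGraph W) (L : W → V), IsCover G H L ∧ IsFold L m ∧
      PDP G m = Nat.card {I : Finset W // IsCol V H I} := by
  obtain ⟨W, hW, H, L, h1, h2⟩ := exists_cover G m
  exact Nat.sInf_mem (s := {N | ∃ (W : Type) (_ : Fintype W) (H : SimpleGraph W) (L : W → V),
    IsCover G H L ∧ IsFold L m ∧ N = Nat.card {I : Finset W // IsCol V H I}})
    ⟨_, W, hW, H, L, h1, h2, rfl⟩

/-- Two disjoint colourings. -/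
lemma exists_disjoint {W : Type} [Fintype W] {G : SimpleGraph V} {H : SimpleGraph W} {L : W → V}
    {m : ℕ} (hc : IsCover G H L) (hf : IsFold L m) (hm : chiDP G + 1 ≤ m) :
    ∃ C C' : Finset W, IsCol V H C ∧ IsCol V H C' ∧ Disjoint C C' := by
  classical
  obtain ⟨C, hC⟩ := exists_col_of_le (chiDP_good G) hc (fun v => by rw [hf v]; omega)
  obtain ⟨C', hC'⟩ := exists_col_of_le (chiDP_good G) (hc.induce {w | w ∉ C}) (by
    intro v
    have h1 : Nat.card {w : ({w | w ∉ C} : Set W) // L w.1 = v} =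
        (univ.filter (fun w => L w = v ∧ w ∉ C)).card := by
      rw [← Fintype.card_subtype, ← Nat.card_eq_fintype_card]
      apply Nat.card_congr
      exact
        { toFun := fun w => ⟨w.1.1, w.2, w.1.2⟩
          invFun := fun w => ⟨⟨w.1, w.2.2⟩, w.2.1⟩
          left_inv := fun w => rfl
          right_inv := fun w => rfl }
    rw [h1]
    have h2 := hf v
    rw [Nat.card_eq_fintype_card, Fintype.card_subtype] at h2
    have h3 := Finset.card_filter_add_card_filter_not (s := univ.filter (fun w => L w = v))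
      (fun w => w ∈ C)
    rw [filter_filter, filter_filter, h2] at h3
    have h4 : (univ.filter (fun w => L w = v ∧ w ∈ C)).card ≤ 1 := by
      rw [card_le_one]
      intro a ha b hb
      rw [mem_filter] at ha hb
      exact hc.injOn hC.1 ha.2.2 hb.2.2 (ha.2.1.trans hb.2.1.symm)
    omega)
  refine ⟨C, C'.map (Function.Embedding.subtype _), hC, ⟨?_, ?_⟩, ?_⟩
  · intro x hx y hy hadj
    rw [mem_map] at hx hy
    obtain ⟨x, hx, rfl⟩ := hx
    obtain ⟨y, hy, rfl⟩ := hy
    exact hC'.1 x hx y hy hadj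
  · rw [card_map]; exact hC'.2
  · rw [Finset.disjoint_left]
    intro a ha ha'
    rw [mem_map] at ha'
    obtain ⟨x, hx, rfl⟩ := ha'
    exact x.2 ha

/-- Strict inequality for every `k ≥ 2`. -/
theorem strict [Nonempty V] (G : SimpleGraph V) (k : ℕ) (hk : 2 ≤ k) :
    fG G k < PDP G (chiDP G + k - 1) ^ k := by
  classical
  obtain ⟨W0, _, H0, L0, hc0, hf0, hP⟩ := exists_optimal G (chiDP G + k - 1)
  have hpos := chiDP_pos G
  have hbad : ¬ DPGood G (chiDP G - 1) := not_good_of_lt (by omega)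
  unfold DPGood at hbad
  push Not at hbad
  obtain ⟨W1, _, H1, L1, hc1, hf1, hno⟩ := hbad
  obtain ⟨C, C', hC, hC', hdis⟩ := exists_disjoint hc0 hf0 (by omega)
  set Col := {I : Finset W0 // IsCol V H0 I} with hCol
  set c : Col := ⟨C, hC⟩ with hc
  set c' : Col := ⟨C', hC'⟩ with hc'
  have hcc : c ≠ c' := by
    intro h
    have h1 : C = C' := congrArg Subtype.val h
    rw [← h1, Finset.disjoint_self_iff_empty] at hdis
    have h2 := hC.2
    rw [hdis, card_empty] at h2
    exact Fintype.card_ne_zero h2.symm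
  set i0 : Fin k := ⟨0, by omega⟩ with hi0
  set i1 : Fin k := ⟨1, by omega⟩ with hi1
  have h01 : i0 ≠ i1 := by
    intro h; have := congrArg Fin.val h; simp [hi0, hi1] at this
  set a' : Fin k → Col := fun i => if i = i0 ∨ i = i1 then c' else c with ha'
  set t := Fintype.card {a : Fin k → Col // a ≠ a'} with ht
  have e : Fin t ≃ {a : Fin k → Col // a ≠ a'} := (Fintype.equivFin _).symm
  have htlt : t < PDP G (chiDP G + k - 1) ^ k := by
    have h1 : t < Fintype.card (Fin k → Col) := Fintype.card_subtype_lt (x := a') (by simp)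
    rw [Fintype.card_fun, Fintype.card_fin, ← Nat.card_eq_fintype_card, ← hP] at h1
    exact h1
  -- the sets `A`
  set A : Fin t → Fin k → Fin k → Finset W0 := fun τ i j =>
    if (e τ).1 = (fun _ => c) then
      (if i = j then C else if (i = i0 ∧ j = i1) ∨ (i = i1 ∧ j = i0) then C' else ∅)
    else if i = j then ((e τ).1 i).1 else ∅ with hA
  have hA1 : ∀ τ i j j' w, w ∈ (A τ i j : Set W0) → w ∈ (A τ i j' : Set W0) → j = j' := by
    intro τ i j j' w h1 h2
    rw [mem_coe] at h1 h2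
    simp only [hA] at h1 h2
    split_ifs at h1 h2 with q1 q2 q3 q4 q5 q6 q7 q8 q9 q10 q11
    all_goals first
      | exact absurd h1 (notMem_empty _)
      | exact absurd h2 (notMem_empty _)
      | exact absurd h2 (Finset.disjoint_left.mp hdis h1)
      | exact absurd h1 (Finset.disjoint_left.mp hdis h2)
      | (subst_vars; rfl)
      | skip
    all_goals (try aesop)
  have hA2 : ∀ τ i j w w', w ∈ (A τ i j : Set W0) → w' ∈ (A τ i j : Set W0) → L0 w = L0 w' →
      w = w' := by
    intro τ i j w w' h1 h2 h3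
    rw [mem_coe] at h1 h2
    simp only [hA] at h1 h2
    split_ifs at h1 h2 with q1 q2 q3 q4
    · exact hc0.injOn hC.1 h1 h2 h3
    · exact hc0.injOn hC'.1 h1 h2 h3
    · exact absurd h1 (notMem_empty _)
    · exact hc0.injOn ((e τ).1 i).2.1 h1 h2 h3
    · exact absurd h1 (notMem_empty _)
  have hnocol := comb_nocol (t := t) hc0 hc1 (fun τ i j => (A τ i j : Set W0)) hA1 hA2
    (by push Not; exact hno) (by
      intro D hD
      set a : Fin k → Col := fun i => ⟨D i, hD i⟩ with ha
      by_cases h1 : a = a'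
      · have hne : (fun _ : Fin k => c) ≠ a' := by
          intro h
          have := congrFun h i0
          simp only [ha', true_or, if_true] at this
          exact hcc this
        refine ⟨e.symm ⟨fun _ => c, hne⟩, ?_⟩
        have hval : ∀ i j, A (e.symm ⟨fun _ => c, hne⟩) i j =
            (if i = j then C else if (i = i0 ∧ j = i1) ∨ (i = i1 ∧ j = i0) then C' else ∅) := by
          intro i j
          simp only [hA, Equiv.apply_symm_apply, if_true]
        have hDv : ∀ i, D i = if i = i0 ∨ i = i1 then C' else C := by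
          intro i
          have := congrArg Subtype.val (congrFun h1 i)
          simp only [ha, ha'] at this
          rw [this]
          split_ifs <;> rfl
        intro v j
        by_cases hj0 : j = i0
        · obtain ⟨w, hw, hwv⟩ := hc0.col_surj hC' v
          refine ⟨i1, w, ?_, hwv, ?_⟩
          · rw [hDv]; simpa using hw
          · rw [hval, mem_coe, if_neg (by rw [hj0]; exact h01.symm), if_pos (Or.inr ⟨rfl, hj0⟩)]
            exact hw
        · by_cases hj1 : j = i1
          · obtain ⟨w, hw, hwv⟩ := hc0.col_surj hC' v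
            refine ⟨i0, w, ?_, hwv, ?_⟩
            · rw [hDv]; simpa using hw
            · rw [hval, mem_coe, if_neg (by rw [hj1]; exact h01), if_pos (Or.inl ⟨rfl, hj1⟩)]
              exact hw
          · obtain ⟨w, hw, hwv⟩ := hc0.col_surj hC v
            refine ⟨j, w, ?_, hwv, ?_⟩
            · rw [hDv, if_neg (by push Not; exact ⟨hj0, hj1⟩)]; exact hw
            · rw [hval, mem_coe, if_pos rfl]; exact hw
      · refine ⟨e.symm ⟨a, h1⟩, ?_⟩
        intro v j
        obtain ⟨w, hw, hwv⟩ := hc0.col_surj (hD j) v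
        refine ⟨j, w, hw, hwv, ?_⟩
        rw [mem_coe]
        simp only [hA, Equiv.apply_symm_apply]
        split_ifs with q
        · have := congrArg Subtype.val (congrFun q j)
          simp only [ha, hc] at this
          rw [← this]; exact hw
        · exact hw)
  have hcover := comb_cover (t := t) hc0 hc1 (fun τ i j => (A τ i j : Set W0)) hA1 hA2
  have heq : chiDP G + k - 1 = (chiDP G - 1) + k := by omega
  rw [heq] at hf0
  have hfold := comb_fold (k := k) (t := t) hf0 hf1 rfl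
  have hchi : chiDP (G □ completeBipartiteGraph (Fin k) (Fin t)) = chiDP G + k := by
    have h1 : chiDP (G □ completeBipartiteGraph (Fin k) (Fin t)) ≤ chiDP G + k :=
      Nat.sInf_le (upper G k t)
    have h2 : ¬ chiDP (G □ completeBipartiteGraph (Fin k) (Fin t)) ≤ chiDP G - 1 + k :=
      fun hlt => hnocol (dpGood_mono (chiDP_good _) hlt _ _ _ hcover hfold)
    omega
  exact (Nat.sInf_le (show t ∈ {t | chiDP (G □ completeBipartiteGraph (Fin k) (Fin t)) =
    chiDP G + k} from hchi)).trans_lt htlt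

end Main

/-- For every nonempty finite graph `G` and every `k ≥ 2`, the inequality
`f(G,k) ≤ P_DP(G, χ_DP(G)+k-1)^k` is strict; in particular no graph `G` has equality for every
`k ∈ ℕ`. -/
theorem result :
    (∀ (V : Type) (_ : Fintype V) (_ : Nonempty V) (G : SimpleGraph V) (k : ℕ), 2 ≤ k →
      fG G k < PDP G (chiDP G + k - 1) ^ k) ∧
    ¬ ∃ (V : Type) (_ : Fintype V) (_ : Nonempty V) (G : SimpleGraph V), ∀ k : ℕ, 1 ≤ k →
      fG G k = PDP G (chiDP G + k - 1) ^ k := by
  refine ⟨fun V _ _ G k hk => strict G k hk, ?_⟩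
  rintro ⟨V, _, _, G, h⟩
  exact absurd (h 2 (by norm_num)) (strict G 2 le_rfl).ne

end Pool.Agent.Results.MP_924496_co.NeverForTwo
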